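import Pool.Agent.Work.MP_36d6be_co.Main

/-!
MP_36d6be_co, Q1: a rational-area set of cardinality continuum exists in real `ℓ²` if and only if
an uncountable one exists, if and only if there is an infinite chain of positive rationals `r n`
tending to `0` with `4 r m / r n ∈ 1 + c ℚ²` for `m < n`, where `c = 1` or `c = 3`.
-/

namespace Pool.Agent.Results.MP_36d6be_co.ChainEquivalence

open Pool.Agent.Work.MP_36d6be_co

theorem result :
    ((∃ S : Set L2, Cardinal.mk S = Cardinal.continuum ∧
        IsRationalAreaSet S) ↔ HasInfiniteChain) ∧
    ((∃ S : Set L2, ¬ S.Countable ∧ IsRationalAreaSet S) ↔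
        HasInfiniteChain) :=
  main_equiv

end Pool.Agent.Results.MP_36d6be_co.ChainEquivalence
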