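import Pool.Agent.Work.MP_36d6be_co.SmoothMain

/-!
MP_36d6be_co, Q1: a set in real `ℓ²` all of whose triangles have nonzero rational area, with the
denominator `N` of every area having a divisor `d ≥ N ^ ε` which is a prime power or has only
prime factors congruent to `11` modulo `12`, is countable.
-/

namespace Pool.Agent.Results.MP_36d6be_co.LargeDivisor

open Pool.Agent.Work.MP_36d6be_co

theorem result (ε : ℝ) (hε : 0 < ε) (S : Set L2)
    (hS : ∀ a ∈ S, ∀ b ∈ S, ∀ c ∈ S, a ≠ b → b ≠ c → a ≠ c →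
      ∃ q : ℚ, q ≠ 0 ∧ area a b c = (q : ℝ) ∧
        ∃ d : ℕ, d ∣ q.den ∧ (q.den : ℝ) ^ ε ≤ d ∧
          (IsPrimePow d ∨ ∀ p ∈ d.primeFactors, p % 12 = 11)) : S.Countable :=
  countable_of_large_divisor ε hε S hS

end Pool.Agent.Results.MP_36d6be_co.LargeDivisor
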